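import Pool.Agent.Q241.EPG.Seg

set_option autoImplicit false

/-!
# Counting the graphs with a `k`-bend representation
-/

namespace Pool.Agent.Q241.EPG

open Finset

/-- a `k`-bend EPG representation -/
structure Rep {V : Type} (G : SimpleGraph V) (k : ℕ) where
  src : V → ℤ × ℤ
  tgt : V → ℤ × ℤ
  path : ∀ v, grid.Walk (src v) (tgt v)
  isPath : ∀ v, (path v).IsPath
  bends_le : ∀ v, bends (path v).support ≤ k
  adj_iff : ∀ u v, u ≠ v → (G.Adj u v ↔ ∃ e, e ∈ (path u).edges ∧ e ∈ (path v).edges)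

/-- codes of lists of at most `m` segments with coordinates in `Fin M` -/
abbrev Code (m M : ℕ) : Type := Fin m → Option (Bool × Fin M × Fin M × Fin M)

/-- the relation between codes -/
def meets {m M : ℕ} (x y : Code m M) : Prop :=
  ∃ i j : Fin m, ∃ s t : Bool × Fin M × Fin M × Fin M, x i = some s ∧ y j = some t ∧
    (⟨s.1, s.2.1, s.2.2.1, s.2.2.2⟩ : Seg (Fin M)).Over ⟨t.1, t.2.1, t.2.2.1, t.2.2.2⟩

/-- every representation gives codes -/
theorem Rep.exists_code {V : Type} [Fintype V] {G : SimpleGraph V} {k : ℕ} (R : Rep G k) :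
    ∃ x : V → Code (k + 1) (Fintype.card V * ((k + 1) * 3) + 1),
      ∀ u v, u ≠ v → (G.Adj u v ↔ meets (x u) (x v)) := by
  classical
  choose S hS1 hS2 using fun v => segments (R.path v)
  have hS3 : ∀ v, (S v).length ≤ k + 1 := fun v =>
    (hS1 v).trans (Nat.add_le_add_right (R.bends_le v) 1)
  -- the coordinates that occur
  let Z : Finset ℤ := univ.biUnion fun v : V =>
    (S v).toFinset.biUnion (fun s => {s.c, s.lo, s.hi})
  have hZ : Z.card ≤ Fintype.card V * ((k + 1) * 3) := by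
    refine (card_biUnion_le_card_mul _ _ ((k + 1) * 3) fun v _ => ?_)
    refine (card_biUnion_le_card_mul _ _ 3 fun s _ => card_le_three).trans ?_
    exact Nat.mul_le_mul_right _ ((List.toFinset_card_le _).trans (hS3 v))
  have hmem : ∀ v, ∀ s ∈ S v, s.c ∈ Z ∧ s.lo ∈ Z ∧ s.hi ∈ Z := by
    intro v s hs
    have h : ∀ z ∈ ({s.c, s.lo, s.hi} : Finset ℤ), z ∈ Z := fun z hz =>
      mem_biUnion.2 ⟨v, mem_univ _, mem_biUnion.2 ⟨s, List.mem_toFinset.2 hs, hz⟩⟩
    exact ⟨h _ (by simp), h _ (by simp), h _ (by simp)⟩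
  set M := Fintype.card V * ((k + 1) * 3) + 1 with hM
  let r : ℤ → Fin M := fun z => ⟨(Z.filter (· < z)).card,
    Nat.lt_succ_of_le ((card_le_card (filter_subset _ _)).trans hZ)⟩
  have hlt : ∀ a ∈ Z, ∀ b, a < b → r a < r b := by
    intro a ha b hab
    show (Z.filter (· < a)).card < (Z.filter (· < b)).card
    apply card_lt_card
    refine ⟨fun z hz => ?_, fun hcon => ?_⟩
    · rw [mem_filter] at hz ⊢
      exact ⟨hz.1, hz.2.trans hab⟩
    · have := hcon (mem_filter.2 ⟨ha, hab⟩)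
      rw [mem_filter] at this
      exact lt_irrefl _ this.2
  have hlt' : ∀ a ∈ Z, ∀ b ∈ Z, (a < b ↔ r a < r b) := by
    intro a ha b hb
    refine ⟨hlt a ha b, fun h => ?_⟩
    by_contra hcon
    rcases lt_or_eq_of_le (not_lt.1 hcon) with h1 | h1
    · exact lt_asymm h (hlt b hb a h1)
    · rw [h1] at h
      exact lt_irrefl _ h
  have heq' : ∀ a ∈ Z, ∀ b ∈ Z, (a = b ↔ r a = r b) := by
    intro a ha b hb
    refine ⟨fun h => by rw [h], fun h => ?_⟩
    rcases lt_trichotomy a b with h1 | h1 | h1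
    · exact absurd h (ne_of_lt (hlt a ha b h1))
    · exact h1
    · exact absurd h (ne_of_gt (hlt b hb a h1))
  let cd : Seg ℤ → Bool × Fin M × Fin M × Fin M := fun s => (s.hor, r s.c, r s.lo, r s.hi)
  refine ⟨fun v i => ((S v)[(i : ℕ)]?).map cd, fun u v huv => ?_⟩
  rw [R.adj_iff u v huv]
  have h1 : (∃ e, e ∈ (R.path u).edges ∧ e ∈ (R.path v).edges) ↔
      ∃ s ∈ S u, ∃ t ∈ S v, s.Over t := by
    constructor
    · rintro ⟨e, h2, h3⟩
      obtain ⟨s, hs, h4⟩ := (hS2 u e).1 h2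
      obtain ⟨t, ht, h5⟩ := (hS2 v e).1 h3
      exact ⟨s, hs, t, ht, (over_iff s t).2 ⟨e, h4, h5⟩⟩
    · rintro ⟨s, hs, t, ht, h⟩
      obtain ⟨e, h4, h5⟩ := (over_iff s t).1 h
      exact ⟨e, (hS2 u e).2 ⟨s, hs, h4⟩, (hS2 v e).2 ⟨t, ht, h5⟩⟩
  rw [h1]
  have h2 : ∀ s ∈ S u, ∀ t ∈ S v, (s.Over t ↔
      (⟨(cd s).1, (cd s).2.1, (cd s).2.2.1, (cd s).2.2.2⟩ : Seg (Fin M)).Over
        ⟨(cd t).1, (cd t).2.1, (cd t).2.2.1, (cd t).2.2.2⟩) := by
    intro s hs t ht
    obtain ⟨a1, a2, a3⟩ := hmem u s hs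
    obtain ⟨b1, b2, b3⟩ := hmem v t ht
    unfold Seg.Over
    rw [heq' _ a1 _ b1, hlt' _ a2 _ a3, hlt' _ a2 _ b3, hlt' _ b2 _ a3, hlt' _ b2 _ b3]
  constructor
  · rintro ⟨s, hs, t, ht, h⟩
    obtain ⟨i, hi, his⟩ := List.getElem_of_mem hs
    obtain ⟨j, hj, hjt⟩ := List.getElem_of_mem ht
    refine ⟨⟨i, hi.trans_le (hS3 u)⟩, ⟨j, hj.trans_le (hS3 v)⟩, cd s, cd t, ?_, ?_,
      (h2 s hs t ht).1 h⟩
    · simp only [List.getElem?_eq_getElem hi, his, Option.map_some]
    · simp only [List.getElem?_eq_getElem hj, hjt, Option.map_some]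
  · rintro ⟨i, j, s', t', hi, hj, h⟩
    simp only [Option.map_eq_some_iff] at hi hj
    obtain ⟨s, hs, rfl⟩ := hi
    obtain ⟨t, ht, rfl⟩ := hj
    have hs' := List.mem_of_getElem? hs
    have ht' := List.mem_of_getElem? ht
    exact ⟨s, hs', t, ht', (h2 s hs' t ht').2 h⟩

/-- the graph of a relation between two cliques -/
def cob (m : ℕ) (R : Fin m → Fin m → Bool) : SimpleGraph (Fin m ⊕ Fin m) where
  Adj x y := x ≠ y ∧ match x, y with
    | Sum.inl i, Sum.inr j => R i j = true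
    | Sum.inr j, Sum.inl i => R i j = true
    | _, _ => True
  symm := ⟨by
    rintro (i | i) (j | j) ⟨h1, h2⟩ <;> exact ⟨h1.symm, h2⟩⟩
  loopless := ⟨fun x h => h.1 rfl⟩

/-- claw-free: no vertex has three pairwise nonadjacent neighbours -/
def ClawFree {V : Type} (G : SimpleGraph V) : Prop :=
  ¬ ∃ f : Fin 4 → V, Function.Injective f ∧ G.Adj (f 0) (f 1) ∧ G.Adj (f 0) (f 2) ∧
    G.Adj (f 0) (f 3) ∧ ¬ G.Adj (f 1) (f 2) ∧ ¬ G.Adj (f 1) (f 3) ∧ ¬ G.Adj (f 2) (f 3)

theorem cob_clawFree (m : ℕ) (R : Fin m → Fin m → Bool) : ClawFree (cob m R) := by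
  rintro ⟨f, hf, -, -, -, h12, h13, h23⟩
  have hne : ∀ a b, a ≠ b → f a ≠ f b := fun a b h h' => h (hf h')
  have e12 := hne 1 2 (by decide)
  have e13 := hne 1 3 (by decide)
  have e23 := hne 2 3 (by decide)
  revert h12 h13 h23 e12 e13 e23
  generalize f 1 = a
  generalize f 2 = b
  generalize f 3 = c
  rintro h12 h13 h23 e12 e13 e23
  rcases a with a | a <;> rcases b with b | b <;> rcases c with c | c <;>
    first
    | exact h12 ⟨e12, trivial⟩
    | exact h13 ⟨e13, trivial⟩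
    | exact h23 ⟨e23, trivial⟩

/-- for large `m` some graph consisting of two cliques has no `k`-bend representation -/
theorem exists_no_rep (k m : ℕ)
    (hm : Fintype.card (Fin m ⊕ Fin m → Code (k + 1) (Fintype.card (Fin m ⊕ Fin m) * ((k + 1) * 3) + 1)) <
      2 ^ (m * m)) :
    ∃ R : Fin m → Fin m → Bool, IsEmpty (Rep (cob m R) k) := by
  classical
  by_contra hcon
  push Not at hcon
  choose x hx using fun R => (hcon R).some.exists_code
  have hinj : Function.Injective x := by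
    intro R R' h
    funext i j
    have h1 := hx R (Sum.inl i) (Sum.inr j) (by simp)
    have h2 := hx R' (Sum.inl i) (Sum.inr j) (by simp)
    rw [h, ← h2] at h1
    have h3 : ∀ R : Fin m → Fin m → Bool, (cob m R).Adj (Sum.inl i) (Sum.inr j) ↔ R i j = true := by
      intro R
      exact ⟨fun h => h.2, fun h => ⟨by simp, h⟩⟩
    rw [h3, h3] at h1
    exact Bool.eq_iff_iff.2 h1
  have h1 := Fintype.card_le_of_injective x hinj
  have h2 : Fintype.card (Fin m → Fin m → Bool) = 2 ^ (m * m) := by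
    simp [pow_mul]
  omega

end Pool.Agent.Q241.EPG
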