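import Mathlib

set_option autoImplicit false

/-!
# Grid paths with few bends as lists of axis-parallel segments
-/

namespace Pool.Agent.Q241.EPG

/-- two points of the grid `ℤ × ℤ` are joined by a horizontal grid edge -/
def HEdge (p q : ℤ × ℤ) : Prop := p.2 = q.2 ∧ |p.1 - q.1| = 1

/-- two points of the grid `ℤ × ℤ` are joined by a vertical grid edge -/
def VEdge (p q : ℤ × ℤ) : Prop := p.1 = q.1 ∧ |p.2 - q.2| = 1

instance (p q : ℤ × ℤ) : Decidable (HEdge p q) := by unfold HEdge; infer_instance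
instance (p q : ℤ × ℤ) : Decidable (VEdge p q) := by unfold VEdge; infer_instance

/-- the planar square grid -/
def grid : SimpleGraph (ℤ × ℤ) where
  Adj p q := HEdge p q ∨ VEdge p q
  symm := ⟨by
    rintro p q (⟨h1, h2⟩ | ⟨h1, h2⟩)
    · exact Or.inl ⟨h1.symm, by rw [abs_sub_comm]; exact h2⟩
    · exact Or.inr ⟨h1.symm, by rw [abs_sub_comm]; exact h2⟩⟩
  loopless := ⟨by
    rintro p (⟨h1, h2⟩ | ⟨h1, h2⟩)
    · simp at h2
    · simp at h2⟩

/-- the number of bends of a list of points: the number of places where one of two consecutive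
steps is horizontal and the other one is vertical -/
def bends : List (ℤ × ℤ) → ℕ
  | p :: q :: r :: l =>
    (if (HEdge p q ∧ VEdge q r) ∨ (VEdge p q ∧ HEdge q r) then 1 else 0) + bends (q :: r :: l)
  | _ => 0

/-- an axis-parallel segment: `hor` tells whether it is horizontal, `c` is the constant coordinate,
the other coordinate is between `lo` and `hi` -/
structure Seg (α : Type) where
  hor : Bool
  c : α
  lo : α
  hi : α

/-- the point with coordinate `t` on the line with constant coordinate `c` -/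
def pt (hor : Bool) (c t : ℤ) : ℤ × ℤ := if hor then (t, c) else (c, t)

/-- the unordered pair `e` is a grid edge in the segment `s` -/
def Seg.Has (s : Seg ℤ) (e : Sym2 (ℤ × ℤ)) : Prop :=
  ∃ t : ℤ, s.lo ≤ t ∧ t + 1 ≤ s.hi ∧ e = s(pt s.hor s.c t, pt s.hor s.c (t + 1))

/-- two segments overlap in at least one edge -/
def Seg.Over {α : Type} [LT α] (s s' : Seg α) : Prop :=
  s.hor = s'.hor ∧ s.c = s'.c ∧ s.lo < s.hi ∧ s.lo < s'.hi ∧ s'.lo < s.hi ∧ s'.lo < s'.hi

theorem over_iff (s s' : Seg ℤ) : s.Over s' ↔ ∃ e, s.Has e ∧ s'.Has e := by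
  constructor
  · rintro ⟨h1, h2, h3, h4, h5, h6⟩
    refine ⟨_, ⟨max s.lo s'.lo, le_max_left _ _, ?_, rfl⟩, max s.lo s'.lo, le_max_right _ _, ?_, ?_⟩
    · omega
    · omega
    · rw [h1, h2]
  · rintro ⟨e, ⟨t, h1, h2, h3⟩, t', h4, h5, h6⟩
    rw [h3] at h6
    unfold Seg.Over
    unfold pt at h6
    cases ha : s.hor <;> cases hb : s'.hor <;>
      simp only [ha, hb, if_true, if_false, Bool.false_eq_true] at h6 <;>
      rw [Sym2.eq_iff] at h6 <;> simp only [Prod.mk.injEq] at h6 <;>
      refine ⟨?_, ?_, ?_, ?_, ?_, ?_⟩ <;>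
      first | rfl | omega

/-- extending a segment by one step -/
theorem has_ext (s : Seg ℤ) (a b : ℤ) (h : |a - b| = 1) (h1 : s.lo ≤ b) (h2 : b ≤ s.hi)
    (e : Sym2 (ℤ × ℤ)) :
    (⟨s.hor, s.c, min s.lo a, max s.hi a⟩ : Seg ℤ).Has e ↔
      e = s(pt s.hor s.c a, pt s.hor s.c b) ∨ s.Has e := by
  have hab : a = b + 1 ∨ a + 1 = b := by
    rcases abs_eq (by norm_num : (0:ℤ) ≤ 1) |>.1 h with h | h <;> omega
  constructor
  · rintro ⟨t, h3, h4, h5⟩
    simp only at h3 h4 h5
    by_cases hc : s.lo ≤ t ∧ t + 1 ≤ s.hi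
    · exact Or.inr ⟨t, hc.1, hc.2, h5⟩
    · left
      rcases hab with hab | hab
      · have ht : t = b := by omega
        rw [h5, ht, hab]
        exact Sym2.eq_swap
      · have ht : t = a := by omega
        rw [h5, ht, hab]
  · rintro (h5 | ⟨t, h3, h4, h5⟩)
    · rcases hab with hab | hab
      · refine ⟨b, ?_, ?_, ?_⟩
        · simp only; omega
        · simp only; omega
        · rw [h5, hab]
          exact Sym2.eq_swap
      · refine ⟨a, ?_, ?_, ?_⟩
        · simp only; omega
        · simp only; omega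
        · rw [h5, ← hab]
    · refine ⟨t, ?_, ?_, h5⟩
      · simp only; omega
      · simp only; omega

theorem has_single (hor : Bool) (c a b : ℤ) (h : |a - b| = 1) (e : Sym2 (ℤ × ℤ)) :
    (⟨hor, c, min b a, max b a⟩ : Seg ℤ).Has e ↔ e = s(pt hor c a, pt hor c b) := by
  have h1 := has_ext ⟨hor, c, b, b⟩ a b h le_rfl le_rfl e
  simp only at h1
  rw [h1]
  constructor
  · rintro (h2 | ⟨t, h3, h4, _⟩)
    · exact h2
    · simp only at h3 h4
      omega
  · exact Or.inl

/-- `e` joins two consecutive points of the list -/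
def edgeIn : List (ℤ × ℤ) → Sym2 (ℤ × ℤ) → Prop
  | p :: q :: l, e => e = s(p, q) ∨ edgeIn (q :: l) e
  | _, _ => False

theorem edgeIn_support {a b : ℤ × ℤ} (w : grid.Walk a b) (e : Sym2 (ℤ × ℤ)) :
    edgeIn w.support e ↔ e ∈ w.edges := by
  induction w with
  | nil => simp [edgeIn]
  | @cons u v t h w ih =>
    cases w with
    | nil => simp [edgeIn]
    | @cons _ x _ h' w' =>
      rw [SimpleGraph.Walk.support_cons, SimpleGraph.Walk.edges_cons, List.mem_cons, ← ih]
      rfl

/-- the invariant for the first segment of a decomposition -/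
structure Inv (s : Seg ℤ) (hor : Bool) (c a b : ℤ) : Prop where
  h1 : s.hor = hor
  h2 : s.c = c
  h3 : s.lo ≤ a
  h4 : a ≤ s.hi
  h5 : s.lo ≤ b
  h6 : b ≤ s.hi

/-- direction, constant coordinate and moving coordinates of a step -/
structure StepOf (p q : ℤ × ℤ) (hor : Bool) (c a b : ℤ) : Prop where
  hp : p = pt hor c a
  hq : q = pt hor c b
  hab : |a - b| = 1

theorem stepOf_of_adj {p q : ℤ × ℤ} (h : grid.Adj p q) : ∃ hor c a b, StepOf p q hor c a b := by
  rcases h with ⟨h1, h2⟩ | ⟨h1, h2⟩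
  · exact ⟨true, p.2, p.1, q.1, rfl, by rw [h1]; rfl, h2⟩
  · exact ⟨false, p.1, p.2, q.2, rfl, by rw [h1]; rfl, h2⟩

theorem StepOf.hEdge {p q : ℤ × ℤ} {c a b : ℤ} (h : StepOf p q true c a b) : HEdge p q := by
  obtain ⟨rfl, rfl, h⟩ := h
  exact ⟨rfl, h⟩

theorem StepOf.vEdge {p q : ℤ × ℤ} {c a b : ℤ} (h : StepOf p q false c a b) : VEdge p q := by
  obtain ⟨rfl, rfl, h⟩ := h
  exact ⟨rfl, h⟩

theorem decomp : ∀ (l : List (ℤ × ℤ)) (p q : ℤ × ℤ), (p :: q :: l).IsChain grid.Adj →
    ∀ hor c a b, StepOf p q hor c a b →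
    ∃ (s : Seg ℤ) (S : List (Seg ℤ)), (s :: S).length ≤ bends (p :: q :: l) + 1 ∧
      (∀ e, edgeIn (p :: q :: l) e ↔ ∃ t ∈ s :: S, t.Has e) ∧ Inv s hor c a b := by
  intro l
  induction l with
  | nil =>
    intro p q hch hor c a b hst
    refine ⟨⟨hor, c, min b a, max b a⟩, [], by simp, ?_, ⟨rfl, rfl, ?_, ?_, ?_, ?_⟩⟩
    · intro e
      simp only [edgeIn, or_false, List.mem_singleton, exists_eq_left]
      rw [has_single hor c a b hst.hab, hst.hp, hst.hq]
    all_goals simp only; omega
  | cons r l ih =>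
    intro p q hch hor c a b hst
    rw [List.isChain_cons_cons] at hch
    have hqr : grid.Adj q r := by
      have := hch.2
      rw [List.isChain_cons_cons] at this
      exact this.1
    obtain ⟨hor', c', a', b', hst'⟩ := stepOf_of_adj hqr
    obtain ⟨s, S, hS1, hS2, hS3⟩ := ih q r hch.2 hor' c' a' b' hst'
    by_cases hh : hor = hor'
    · subst hh
      have hq : pt hor c b = pt hor c' a' := by rw [← hst.hq, ← hst'.hp]
      have hcb : c = c' ∧ b = a' := by
        unfold pt at hq
        cases hor <;> simp at hq <;> tauto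
      obtain ⟨rfl, rfl⟩ := hcb
      refine ⟨⟨s.hor, s.c, min s.lo a, max s.hi a⟩, S, ?_, ?_, ⟨hS3.h1, hS3.h2, ?_, ?_, ?_, ?_⟩⟩
      · have : bends (q :: r :: l) ≤ bends (p :: q :: r :: l) := by
          show _ ≤ _ + bends (q :: r :: l)
          omega
        simp only [List.length_cons] at hS1 ⊢
        omega
      · intro e
        show (e = s(p, q) ∨ edgeIn (q :: r :: l) e) ↔ _
        rw [hS2 e]
        simp only [List.mem_cons, exists_eq_or_imp]
        rw [has_ext s a b hst.hab hS3.h3 hS3.h4 e, hS3.h1, hS3.h2, ← hst.hp, ← hst.hq, or_assoc]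
      all_goals
        have := hS3.h3
        have := hS3.h4
        simp only
        omega
    · refine ⟨⟨hor, c, min b a, max b a⟩, s :: S, ?_, ?_, ⟨rfl, rfl, ?_, ?_, ?_, ?_⟩⟩
      · have : bends (p :: q :: r :: l) = 1 + bends (q :: r :: l) := by
          show (if (HEdge p q ∧ VEdge q r) ∨ (VEdge p q ∧ HEdge q r) then 1 else 0) + _ = _
          rw [if_pos]
          cases hor <;> cases hor'
          · exact absurd rfl hh
          · exact Or.inr ⟨hst.vEdge, hst'.hEdge⟩
          · exact Or.inl ⟨hst.hEdge, hst'.vEdge⟩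
          · exact absurd rfl hh
        simp only [List.length_cons] at hS1 ⊢
        omega
      · intro e
        show (e = s(p, q) ∨ edgeIn (q :: r :: l) e) ↔ _
        rw [hS2 e]
        simp only [List.mem_cons, exists_eq_or_imp]
        rw [has_single hor c a b hst.hab, hst.hp, hst.hq]
      all_goals simp only; omega

/-- the edges of a grid path with `k` bends are the edges of at most `k + 1` segments -/
theorem segments {a b : ℤ × ℤ} (w : grid.Walk a b) :
    ∃ S : List (Seg ℤ), S.length ≤ bends w.support + 1 ∧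
      ∀ e, e ∈ w.edges ↔ ∃ t ∈ S, t.Has e := by
  cases w with
  | nil => exact ⟨[], by simp, by simp⟩
  | @cons _ v _ h w =>
    have hch := (SimpleGraph.Walk.cons h w).isChain_adj_support
    cases w with
    | nil =>
      obtain ⟨hor, c, x, y, hst⟩ := stepOf_of_adj h
      obtain ⟨s, S, h1, h2, _⟩ := decomp [] a _ (by simpa using h) hor c x y hst
      refine ⟨s :: S, h1, fun e => ?_⟩
      rw [← h2 e, ← edgeIn_support]
      rfl
    | @cons _ x _ h' w' =>
      obtain ⟨hor, c, x, y, hst⟩ := stepOf_of_adj h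
      obtain ⟨s, S, h1, h2, _⟩ := decomp w'.support a v hch hor c x y hst
      refine ⟨s :: S, h1, fun e => ?_⟩
      rw [← h2 e, ← edgeIn_support]
      rfl

end Pool.Agent.Q241.EPG
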